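import Pool.Agent.Run7.h940.PACH.Iface

/-! # Project PACH (helper940), piece SEP (helper819): separation in every dimension -/

set_option autoImplicit false

namespace Run7.h819.PACH

open Finset Module Run7.h940.PACH

/-- the sign pattern -/
noncomputable def sgn {ι : Type} (s : ι → Bool) (i : ι) : ℝ := if s i then 1 else -1

/-- the first alternative for one sign pattern -/
def PP {V : Type} [AddCommGroup V] [Module ℝ V] {ι : Type} [Fintype ι] (s : ι → Bool)
    (E : ι → Finset V) : Prop :=
  ∀ y : ι → V, (∀ i, y i ∈ convexHull ℝ (E i : Set V)) → ∀ a : ι → ℝ,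
    (∀ i, 0 ≤ a i * sgn s i) → ∑ i, a i • y i = 0 → ∀ i, a i = 0

theorem t_SEP : S_PAT → S_SEP := by
  intro hP n
  induction n with
  | zero =>
    refine ⟨1, one_pos, le_rfl, ?_⟩
    intro V _ _ _ ι _ _ hι F
    refine ⟨F, fun i => ⟨subset_rfl, by simp⟩, Or.inl fun y _ => ?_⟩
    have : IsEmpty ι := Fintype.card_eq_zero_iff.1 (by omega)
    exact linearIndependent_empty_type
  | succ n ih =>
    obtain ⟨c, hc, hc1, hS⟩ := ih
    have hP' := hP n c hc hc1 hS
    have hc4 : 0 < c / 4 := by positivity
    have hc41 : c / 4 ≤ 1 := by linarith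
    refine ⟨(c / 4) ^ (2 ^ (n + 1)), by positivity, pow_le_one₀ hc4.le hc41, ?_⟩
    intro V _ _ _ ι _ hV hι F
    classical
    have key : ∀ P : Finset (ι → Bool), ∃ E : ι → Finset V,
        (∀ i, E i ⊆ F i ∧ (c / 4) ^ P.card * ((F i).card : ℝ) ≤ ((E i).card : ℝ)) ∧
          ((∀ s ∈ P, PP s E) ∨ Degen E) := by
      intro P
      induction P using Finset.induction_on with
      | empty => exact ⟨F, fun i => ⟨subset_rfl, by simp⟩, Or.inl (by simp)⟩
      | insert s P hs ihP =>
        obtain ⟨E, hE, h | h⟩ := ihP
        · obtain ⟨E', hE', h'⟩ := hP' V ι hV hι (sgn s)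
            (fun i => by unfold sgn; split_ifs <;> simp) E
          refine ⟨E', fun i => ⟨(hE' i).1.trans (hE i).1, ?_⟩, ?_⟩
          · rw [Finset.card_insert_of_notMem hs, pow_succ']
            calc c / 4 * (c / 4) ^ P.card * ((F i).card : ℝ)
                = c / 4 * ((c / 4) ^ P.card * ((F i).card : ℝ)) := by ring
              _ ≤ c / 4 * ((E i).card : ℝ) := mul_le_mul_of_nonneg_left (hE i).2 hc4.le
              _ ≤ _ := (hE' i).2
          · rcases h' with h' | h'
            · left
              intro t ht
              rcases Finset.mem_insert.1 ht with rfl | ht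
              · exact h'
              · intro y hy a ha h0
                exact h t ht y (fun i => convexHull_mono (Finset.coe_subset.2 (hE' i).1) (hy i)) a ha h0
            · exact Or.inr h'
        · refine ⟨E, fun i => ⟨(hE i).1, ?_⟩, Or.inr h⟩
          rw [Finset.card_insert_of_notMem hs, pow_succ']
          refine le_trans ?_ (hE i).2
          refine mul_le_mul_of_nonneg_right ?_ (Nat.cast_nonneg _)
          exact mul_le_of_le_one_left (by positivity) hc41
    obtain ⟨E, hE, h⟩ := key Finset.univ
    refine ⟨E, fun i => ⟨(hE i).1, ?_⟩, ?_⟩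
    · refine le_trans ?_ (hE i).2
      refine mul_le_mul_of_nonneg_right ?_ (Nat.cast_nonneg _)
      refine pow_le_pow_of_le_one hc4.le hc41 ?_
      rw [Finset.card_univ, Fintype.card_fun, Fintype.card_bool]
      exact Nat.pow_le_pow_right (by norm_num) hι
    · rcases h with h | h
      · left
        intro y hy
        rw [Fintype.linearIndependent_iff]
        intro a ha
        refine h (fun i => decide (0 ≤ a i)) (Finset.mem_univ _) y hy a (fun i => ?_) ha
        unfold sgn
        by_cases hi : 0 ≤ a i
        · simp [hi]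
        · simp only [hi, decide_false, Bool.false_eq_true, if_false]
          linarith
      · exact Or.inr h

end Run7.h819.PACH
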